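import Pool.Agent.H992.BE.Defs

/-!
# Convergent subsequences of the local measures (sequential Prokhorov)
-/

set_option autoImplicit false

namespace Pool.Agent.H181.BE

open MeasureTheory Filter Topology
open scoped ENNReal NNReal BoundedContinuousFunction
open Pool.Agent.H992.BE

theorem sub (h0 : S_KS) (h1 : S_Mod) : S_Sub := by
  intro _ _ m hm σ hσ
  obtain ⟨T, hTc, hTt, hTl⟩ := h1 m hm
  have hTm : ∀ n, AEMeasurable (T n) (m n) := fun n => (hTc n).measurable.aemeasurable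
  have hprob : ∀ n, IsProbabilityMeasure ((m n).map (T n)) := by
    intro n
    have := hm.prob n
    exact Measure.isProbabilityMeasure_map (hTm n)
  let P : ℕ → ProbabilityMeasure C(ℂ, ℝ) := fun n => ⟨(m n).map (T n), hprob n⟩
  have ht : IsTightMeasureSet {((μ : ProbabilityMeasure C(ℂ, ℝ)) : Measure C(ℂ, ℝ)) | μ ∈ Set.range P} := by
    rw [isTightMeasureSet_iff_exists_isCompact_measure_compl_le]
    intro ε hε
    obtain ⟨K, hK⟩ := hTt ε hε
    refine ⟨KS K, h0 K, ?_⟩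
    rintro _ ⟨_, ⟨n, rfl⟩, rfl⟩
    show (m n).map (T n) (KS K)ᶜ ≤ ε
    rw [Measure.map_apply (hTc n).measurable (h0 K).isClosed.measurableSet.compl]
    exact hK n
  have hc : IsCompact (closure (Set.range P)) := isCompact_closure_of_isTightMeasureSet ht
  obtain ⟨μ, -, τ, hτ, hlim⟩ := hc.isSeqCompact (x := fun j => P (σ j))
    (fun j => subset_closure ⟨σ j, rfl⟩)
  refine ⟨τ, (μ : Measure C(ℂ, ℝ)), hτ, inferInstance, ?_⟩
  intro G hG hGb
  obtain ⟨C, hC⟩ := hGb
  let g : C(ℂ, ℝ) →ᵇ ℝ := BoundedContinuousFunction.ofNormedAddCommGroup G hG C (fun f => by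
    rw [Real.norm_eq_abs]
    exact hC f)
  have h2 := (ProbabilityMeasure.tendsto_iff_forall_integral_tendsto.mp hlim) g
  have h3 : ∀ n, ∫ f, g f ∂((P n : ProbabilityMeasure C(ℂ, ℝ)) : Measure C(ℂ, ℝ)) = ∫ f, G (T n f) ∂(m n) := by
    intro n
    show ∫ f, G f ∂((m n).map (T n)) = _
    rw [integral_map (hTm n) hG.measurable.aestronglyMeasurable]
  have h4 : Tendsto (fun j => ∫ f, G (T (σ (τ j)) f) ∂(m (σ (τ j)))) atTop (𝓝 (∫ f, G f ∂(μ : Measure C(ℂ, ℝ)))) := by
    refine Tendsto.congr (fun j => ?_) h2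
    exact h3 _
  have h5 := (hTl G hG ⟨C, hC⟩).comp (hσ.tendsto_atTop.comp hτ.tendsto_atTop)
  have h6 := h5.add h4
  rw [zero_add] at h6
  refine Tendsto.congr (fun j => ?_) h6
  exact sub_add_cancel _ _

end Pool.Agent.H181.BE

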